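import Pool.Agent.H20.SpanMain

/-!
Every connected `d`-regular graph (`d ≥ 3`) has exponentially many isomorphism classes of
spanning trees, with an exponent depending only on `d`.
-/

namespace Pool.Agent.Results.MP_b146e7_co.ExpManyTrees

universe u

/-- The spanning trees of `G`: graphs on the whole vertex set of `G` that are contained in `G`
and are trees. -/
def SpanningTree {V : Type u} (G : SimpleGraph V) : Type u :=
  {T : SimpleGraph V // T ≤ G ∧ T.IsTree}

/-- Two spanning trees are identified when they are isomorphic as abstract graphs. -/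
def isoSetoid {V : Type u} (G : SimpleGraph V) : Setoid (SpanningTree G) where
  r S T := Nonempty (S.val ≃g T.val)
  iseqv := ⟨fun _ => ⟨SimpleGraph.Iso.refl⟩, fun ⟨e⟩ => ⟨e.symm⟩, fun ⟨e⟩ ⟨f⟩ => ⟨e.trans f⟩⟩

/-- The number of isomorphism classes of spanning trees of `G`. -/
noncomputable def numUnlabeled {V : Type u} (G : SimpleGraph V) : ℕ :=
  Nat.card (Quotient (isoSetoid G))

theorem result : ∀ d : ℕ, 3 ≤ d → ∃ c : ℝ, 0 < c ∧
    ∀ (V : Type u) [Fintype V] (G : SimpleGraph V) [DecidableRel G.Adj],
      G.Connected → G.IsRegularOfDegree d → 3 ≤ Fintype.card V →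
        Real.exp (c * (Fintype.card V : ℝ)) ≤ (numUnlabeled G : ℝ) := by
  intro d hd
  obtain ⟨c, hc, hmain⟩ := Pool.Agent.H20.main.{u} d
  refine ⟨c, hc, ?_⟩
  intro V _ G _ hG hreg _
  classical
  have hdeg : ∀ v, (G.neighborSet v).ncard = d := by
    intro v
    rw [← Nat.card_coe_set_eq, Nat.card_eq_fintype_card, SimpleGraph.card_neighborSet_eq_degree]
    exact hreg v
  obtain ⟨𝒯, h1, h2, h3⟩ := hmain V G hG (fun v => by rw [hdeg]; exact hd)
    (fun v => by rw [hdeg])
  refine h3.trans ?_
  have hfin : Finite (SpanningTree G) := by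
    unfold SpanningTree
    infer_instance
  have hfinq : Finite (Quotient (isoSetoid G)) := Quotient.finite _
  let f : 𝒯 → Quotient (isoSetoid G) := fun T => Quotient.mk (isoSetoid G) ⟨T.1, h1 T.1 T.2⟩
  have hf : Function.Injective f := by
    intro T T' hTT
    have h4 : Nonempty (T.1 ≃g T'.1) := Quotient.exact hTT
    exact Subtype.ext (h2 T.1 T.2 T'.1 T'.2 h4)
  have h5 := Nat.card_le_card_of_injective f hf
  rw [Nat.card_eq_fintype_card, Fintype.card_coe] at h5
  unfold numUnlabeled
  exact_mod_cast h5

end Pool.Agent.Results.MP_b146e7_co.ExpManyTrees
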